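import Mathlib
import Pool.Agent.N658.SP.Oct

set_option autoImplicit false

/-! Project OCT of helper658 (page MP_814c9d_an): each level is a Banach space. -/

open Filter Topology

universe u

namespace Pool.Agent.N681.OCT

open Pool.Agent.N658.SP.Oct

/-- the level `n` as a type -/
structure EE (I : Type u) : Type u where
  /-- the function -/
  val : ↥(C0 I)

/-- the identification -/
def ee (I : Type u) : EE I ≃ ↥(C0 I) := ⟨EE.val, EE.mk, fun _ => rfl, fun _ => rfl⟩

instance (I : Type u) : AddCommGroup (EE I) := (ee I).addCommGroup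
instance (I : Type u) : Module ℝ (EE I) := (ee I).module ℝ

/-- the linear identification -/
def eel (I : Type u) : EE I ≃ₗ[ℝ] ↥(C0 I) := (ee I).linearEquiv ℝ

lemma bdd {I : Type u} (y : ↥(C0 I)) : ∃ C : ℝ, 0 ≤ C ∧ ∀ a, |(y : I → ℝ) a| ≤ C := by
  have h := y.2 1 one_pos
  refine ⟨1 + ∑ a ∈ h.toFinset, |(y : I → ℝ) a|, by positivity, fun a => ?_⟩
  by_cases ha : 1 ≤ |(y : I → ℝ) a|
  · have h1 : |(y : I → ℝ) a| ≤ ∑ a ∈ h.toFinset, |(y : I → ℝ) a| :=
      Finset.single_le_sum (f := fun a => |(y : I → ℝ) a|) (fun _ _ => abs_nonneg _)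
        (h.mem_toFinset.2 ha)
    linarith
  · push Not at ha
    have : 0 ≤ ∑ a ∈ h.toFinset, |(y : I → ℝ) a| := Finset.sum_nonneg fun _ _ => abs_nonneg _
    linarith

lemma rr_nonneg (n : ℕ) : 0 ≤ rr n := by
  unfold rr
  have : 1 / ((n : ℝ) + 2) ≤ 1 := by
    rw [div_le_one (by positivity)]
    have : (0 : ℝ) ≤ n := Nat.cast_nonneg n
    linarith
  linarith

lemma rr_lt (n : ℕ) : rr n < 1 := by
  unfold rr
  have : 0 < 1 / ((n : ℝ) + 2) := by positivity
  linarith

theorem stmInst (h : StmNrm.{u}) : StmInst.{u} := by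
  intro I _ n
  have hr1 := rr_lt n
  obtain ⟨h1, h2, h3, -⟩ := h I (rr n) (rr_nonneg n) hr1
  letI : Norm (EE I) := ⟨fun y => nrm (rr n) (eel I y : I → ℝ)⟩
  have hn : ∀ y : EE I, ‖y‖ = nrm (rr n) (eel I y : I → ℝ) := fun _ => rfl
  have hle : ∀ (y : EE I) (a : I), |(eel I y : I → ℝ) a| ≤ ‖y‖ := by
    intro y a
    obtain ⟨C, hC0, hC⟩ := bdd (eel I y)
    exact (h1 _ C hC hC0).2.2.2 a
  have core : NormedSpace.Core ℝ (EE I) := by
    refine ⟨⟨fun y => ?_, fun c y => ?_, fun x y => ?_⟩, fun y => ⟨fun hy => ?_, fun hy => ?_⟩⟩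
    · obtain ⟨C, hC0, hC⟩ := bdd (eel I y)
      exact (h1 _ C hC hC0).2.2.1
    · rw [hn, hn, map_smul]
      exact h3 c _
    · obtain ⟨C, hC0, hC⟩ := bdd (eel I x)
      obtain ⟨D, hD0, hD⟩ := bdd (eel I y)
      rw [hn, hn, hn, map_add]
      exact h2 _ _ (max C D) (fun a => (hC a).trans (le_max_left _ _))
        (fun a => (hD a).trans (le_max_right _ _))
    · apply (eel I).injective
      rw [map_zero]
      ext a
      have := hle y a
      rw [hy] at this
      exact abs_eq_zero.1 (le_antisymm this (abs_nonneg _))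
    · have := h3 0 (0 : I → ℝ)
      rw [zero_smul, abs_zero, zero_mul] at this
      rw [hn, hy, map_zero]
      exact this
  letI I1 : NormedAddCommGroup (EE I) := NormedAddCommGroup.ofCore core
  letI I2 : NormedSpace ℝ (EE I) := NormedSpace.ofCore core
  refine ⟨EE I, I1, I2, ?_, eel I, fun y => rfl⟩
  apply Metric.complete_of_cauchySeq_tendsto
  intro v hv
  rw [Metric.cauchySeq_iff] at hv
  have hca : ∀ a, ∃ l : ℝ, Tendsto (fun k => (eel I (v k) : I → ℝ) a) atTop (𝓝 l) := by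
    intro a
    apply cauchySeq_tendsto_of_complete
    rw [Metric.cauchySeq_iff]
    intro e he
    obtain ⟨K, hK⟩ := hv e he
    refine ⟨K, fun k hk m hm => ?_⟩
    have g1 := hK k hk m hm
    rw [dist_eq_norm] at g1
    have g2 := hle (v k - v m) a
    rw [map_sub] at g2
    rw [Real.dist_eq]
    exact lt_of_le_of_lt g2 g1
  choose y hy using hca
  have hlim : ∀ e : ℝ, 0 < e → ∃ K, ∀ k ≥ K, ∀ a, |(eel I (v k) : I → ℝ) a - y a| ≤ e := by
    intro e he
    obtain ⟨K, hK⟩ := hv e he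
    refine ⟨K, fun k hk a => ?_⟩
    have g3 : Tendsto (fun m => |(eel I (v k) : I → ℝ) a - (eel I (v m) : I → ℝ) a|) atTop
        (𝓝 |(eel I (v k) : I → ℝ) a - y a|) := (tendsto_const_nhds.sub (hy a)).abs
    refine le_of_tendsto g3 ?_
    filter_upwards [eventually_ge_atTop K] with m hm
    have g1 := hK k hk m hm
    rw [dist_eq_norm] at g1
    have g2 := hle (v k - v m) a
    rw [map_sub] at g2
    exact g2.trans g1.le
  have hyC : y ∈ C0 I := by
    intro d hd
    obtain ⟨K, hK⟩ := hlim (d / 2) (by positivity)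
    refine ((eel I (v K)).2 (d / 2) (by positivity)).subset ?_
    intro a ha
    have ha' : d ≤ |y a| := ha
    have g1 := hK K le_rfl a
    change d / 2 ≤ |(eel I (v K) : I → ℝ) a|
    have g2 := abs_sub_abs_le_abs_sub (y a) ((eel I (v K) : I → ℝ) a)
    rw [abs_sub_comm] at g2
    linarith
  refine ⟨(eel I).symm ⟨y, hyC⟩, ?_⟩
  rw [Metric.tendsto_atTop]
  intro e he
  have hpos : 0 < 1 - rr n := by linarith
  obtain ⟨K, hK⟩ := hlim (e / 2 * (1 - rr n)) (by positivity)
  refine ⟨K, fun k hk => ?_⟩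
  rw [dist_eq_norm]
  have g1 : ‖v k - (eel I).symm ⟨y, hyC⟩‖ ≤ (e / 2 * (1 - rr n)) / (1 - rr n) := by
    have g2 := (h1 ((eel I (v k) : I → ℝ) - y) (e / 2 * (1 - rr n)) (hK k hk) (by positivity)).2.1
    have g3 : ‖v k - (eel I).symm ⟨y, hyC⟩‖ = nrm (rr n) ((eel I (v k) : I → ℝ) - y) := by
      change nrm (rr n) (eel I (v k - (eel I).symm ⟨y, hyC⟩) : I → ℝ) = _
      rw [map_sub, LinearEquiv.apply_symm_apply]
      rfl
    rw [g3]
    exact g2
  have g4 : (e / 2 * (1 - rr n)) / (1 - rr n) = e / 2 := by field_simp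
  rw [g4] at g1
  linarith

end Pool.Agent.N681.OCT
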